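import Pool.Agent.H70.CC.Slice

/-!
Let `d` be odd, let `P` be a finite set in general position in `ℝ^d` and let `C` be a subset of `P`.  Given
`v₁, …, v_c`, a simplex spanned by `C` is called exceptional if the number of further points of `P` in it is
positive and in none of the intervals `[v_i, K v_i]`.  If few simplices spanned by `C` are exceptional, then
`P` has many `k`-holes with vertices in `C`, also in many regions with pairwise disjoint convex hulls.

The proof: a large set in general position without exceptional simplices has a `k`-hole of `P`, by Ramsey's
theorem and the comparison of the two triangulations of `d + 2` points, which have different numbers of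
simplices since `d + 2` is odd.  Averaging over the subsets of `C` with a large constant number of points one
gets a positive proportion, and this is applied to `2 m` slices of `C`, of which at least `m` have few
exceptional simplices.
-/

set_option autoImplicit false

namespace Pool.Agent.Results.MP_44771e_co.ExceptionalSimplices

/-- Points of `ℝ^d`. -/
abbrev Pt (d : ℕ) : Type := EuclideanSpace ℝ (Fin d)

/-- `P` is in general position: every `d + 1` points of `P` are affinely independent. -/
def GeneralPosition (d : ℕ) (P : Finset (Pt d)) : Prop :=
  ∀ S ⊆ P, S.card = d + 1 → AffineIndependent ℝ (fun x : S => (x : Pt d))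

open Classical in
/-- `H` is a `k`-hole of `P`: `H` is a subset of `P` with `k` elements, no point of `H` is in the convex hull
of the other points of `H`, and the convex hull of `H` contains no other points of `P`. -/
def IsHole (d k : ℕ) (P H : Finset (Pt d)) : Prop :=
  H ⊆ P ∧ H.card = k ∧ (∀ p ∈ H, p ∉ convexHull ℝ ((H.erase p : Finset (Pt d)) : Set (Pt d))) ∧
    ∀ p ∈ P, p ∈ convexHull ℝ (H : Set (Pt d)) → p ∈ H

open Classical in
/-- The number of points of `P` which are in the convex hull of `S` but not in `S`. -/
noncomputable def further {d : ℕ} (P S : Finset (Pt d)) : ℕ :=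
  ((P \ S).filter (fun p => p ∈ convexHull ℝ (S : Set (Pt d)))).card

open Classical in
/-- The exceptional simplices spanned by `C`: the subsets `S` of `C` with `d + 1` elements such that the number
of further points of `P` in the convex hull of `S` is positive and in none of the intervals `[v i, K * v i]`. -/
noncomputable def exceptional {d : ℕ} (c K : ℕ) (v : Fin c → ℕ) (P C : Finset (Pt d)) :
    Finset (Finset (Pt d)) :=
  (C.powersetCard (d + 1)).filter
    (fun S => further P S ≠ 0 ∧ ∀ i, ¬ (v i ≤ further P S ∧ further P S ≤ K * v i))

open Classical in
/-- The `k`-holes of `P` with all vertices in `D`. -/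
noncomputable def holesIn {d : ℕ} (k : ℕ) (P D : Finset (Pt d)) : Finset (Finset (Pt d)) :=
  (D.powersetCard k).filter (fun H => IsHole d k P H)

open Classical in
/-- Let `d` be odd.  For all `k`, `c`, `K` there is `M` such that for every finite set `P` in general position
in `ℝ^d`, every subset `C` of `P`, all `v₁, …, v_c` and every `m`: if `C` has at least `M m` elements and if
the number `e` of the exceptional simplices spanned by `C` satisfies `M m^d e ≤ |C|^(d+1)`, then `C` has
subsets `D₁, …, D_m` with pairwise disjoint convex hulls such that each `D_i` contains the vertices of at least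
`|C|^k / (M m^k)` of the `k`-holes of `P`. -/
theorem result (d : ℕ) (hd : Odd d) (k c K : ℕ) :
    ∃ M : ℕ, ∀ (P C : Finset (Pt d)) (v : Fin c → ℕ) (m : ℕ),
      GeneralPosition d P → C ⊆ P → M * m ≤ C.card →
      M * m ^ d * (exceptional c K v P C).card ≤ C.card ^ (d + 1) →
      ∃ D : Fin m → Finset (Pt d),
        (∀ i, D i ⊆ C ∧ C.card ^ k ≤ M * m ^ k * (holesIn k P (D i)).card) ∧
        ∀ i j, i ≠ j →
          Disjoint (convexHull ℝ (D i : Set (Pt d))) (convexHull ℝ (D j : Set (Pt d))) := by
  obtain ⟨M, hM⟩ := H70.CC.many_groups (E := Pt d) hd (by simp [Pt]) k c K
  exact ⟨M, fun P C v m h1 h2 h3 h4 => hM P C v m h1 h2 h3 h4⟩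

end Pool.Agent.Results.MP_44771e_co.ExceptionalSimplices
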