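import Pool.Agent.H70.CC.Geo

/-!
Let `d` be odd and let `P = W ∪ C₁ ∪ ⋯ ∪ C_r` be a finite set in general position in `ℝ^d`.  Suppose that for
every `j` there are `v₁, …, v_c` such that every simplex spanned by `C_j` contains either no further point of
`W ∪ C_j` or at least `v_i` and at most `K v_i` such points for some `i`.  If `C₁ ∪ ⋯ ∪ C_r` has at least
`m N` points, where `N` depends on `d`, `k`, `c`, `K`, `r` only, then `P` has `m` holes with `k` vertices and
with pairwise disjoint convex hulls, and all the vertices of each of them lie in the same `C_j`.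

The proof: by Ramsey's theorem a large `C_j` contains a large set `T` such that the numbers of further
points in its simplices all belong to the same short interval.  Any `d + 2` points of `T` have two
triangulations with different numbers of simplices, since `d + 2` is odd; so the interval is `{0}` and `T` is
a hole of `W ∪ C_j`.  Then either `T` contains few points of `P`, and one of many disjoint slices of `T` is a
hole of `P`, or one uses induction on `r` inside `T`.
-/

set_option autoImplicit false

namespace Pool.Agent.Results.MP_44771e_co.FewSimplexCounts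

/-- Points of `ℝ^d`. -/
abbrev Pt (d : ℕ) : Type := EuclideanSpace ℝ (Fin d)

/-- `P` is in general position: every `d + 1` points of `P` are affinely independent. -/
def GeneralPosition (d : ℕ) (P : Finset (Pt d)) : Prop :=
  ∀ S ⊆ P, S.card = d + 1 → AffineIndependent ℝ (fun x : S => (x : Pt d))

open Classical in
/-- `H` is a `k`-hole of `P`: `H` is a subset of `P` with `k` elements, no point of `H` is in the convex hull
of the other points of `H`, and the convex hull of `H` contains no other points of `P`. -/
def IsHole (d k : ℕ) (P H : Finset (Pt d)) : Prop :=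
  H ⊆ P ∧ H.card = k ∧ (∀ p ∈ H, p ∉ convexHull ℝ ((H.erase p : Finset (Pt d)) : Set (Pt d))) ∧
    ∀ p ∈ P, p ∈ convexHull ℝ (H : Set (Pt d)) → p ∈ H

open Classical in
/-- The number of points of `A` which are in the convex hull of `S` but not in `S`. -/
noncomputable def further {d : ℕ} (A S : Finset (Pt d)) : ℕ :=
  ((A \ S).filter (fun p => p ∈ convexHull ℝ (S : Set (Pt d)))).card

/-- There are `v₁, …, v_c` such that for every subset `S` of `C` with `d + 1` elements the convex hull of `S`
contains either no further point of `A` or between `v_i` and `K v_i` further points of `A` for some `i`. -/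
def FewCounts (d c K : ℕ) (A C : Finset (Pt d)) : Prop :=
  ∃ v : Fin c → ℕ, ∀ S ⊆ C, S.card = d + 1 →
    further A S = 0 ∨ ∃ i, v i ≤ further A S ∧ further A S ≤ K * v i

open Classical in
/-- Let `d` be odd.  For all `k`, `c`, `K`, `r` there is `N` such that for all `m` every finite set
`P = W ∪ C₁ ∪ ⋯ ∪ C_r` in general position in `ℝ^d` such that `FewCounts d c K (W ∪ C_j) C_j` for every `j`,
and such that `C₁ ∪ ⋯ ∪ C_r` has at least `m N` points, has `m` holes with `k` vertices and with pairwise
disjoint convex hulls, each of them with all its vertices in one of the `C_j`. -/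
theorem result (d : ℕ) (hd : Odd d) (k c K r : ℕ) :
    ∃ N : ℕ, ∀ (m : ℕ) (W : Finset (Pt d)) (C : Fin r → Finset (Pt d)),
      GeneralPosition d (W ∪ Finset.univ.biUnion C) →
      (∀ j, FewCounts d c K (W ∪ C j) (C j)) →
      m * N ≤ (Finset.univ.biUnion C).card →
      ∃ H : Fin m → Finset (Pt d),
        (∀ i, (∃ j, H i ⊆ C j) ∧ IsHole d k (W ∪ Finset.univ.biUnion C) (H i)) ∧
        ∀ i j, i ≠ j →
          Disjoint (convexHull ℝ (H i : Set (Pt d))) (convexHull ℝ (H j : Set (Pt d))) := by
  obtain ⟨N, hN⟩ := H70.CC.coarse_many (E := Pt d) hd (by simp [Pt]) k c K r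
  exact ⟨N, fun m W C h1 h2 h3 => hN m W C h1 (fun j => h2 j) h3⟩

end Pool.Agent.Results.MP_44771e_co.FewSimplexCounts
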