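import Pool.Agent.H70.CC.Her

/-!
Unions of sets which are hereditarily rich in holes are rich in holes.  Let `f` be a function.  If `P` is covered
by `C₁, …, C_r`, up to a small proportion of its points, and if for every `j` and `t` every subset of `C_j` with
at least `f t` points has a `t`-hole, then `P` has many disjoint `k`-holes, provided that it is large enough in
terms of `d`, `k`, `r`, `f`.  In other words: if `P` is large and has no `k`-hole, then for every partition of `P`
into `r` parts one of the parts contains a set which has at least `f t` points, but no `t`-hole, for some `t`.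

The proof: some `C_j` is large and has a `t`-hole `T` for a large `t`.  If the convex hull of `T` contains few
further points of `P`, then one of many disjoint slices of `T` is a hole of `P`.  If it contains many of them,
they belong to the other `r - 1` sets, and one uses induction.
-/

set_option autoImplicit false

namespace Pool.Agent.Results.MP_44771e_co.HereditaryUnions

/-- Points of `ℝ^d`. -/
abbrev Pt (d : ℕ) : Type := EuclideanSpace ℝ (Fin d)

open Classical in
/-- `H` is a `k`-hole of `P`: `H` is a subset of `P` with `k` elements, no point of `H` is in the convex hull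
of the other points of `H`, and the convex hull of `H` contains no other points of `P`. -/
def IsHole (d k : ℕ) (P H : Finset (Pt d)) : Prop :=
  H ⊆ P ∧ H.card = k ∧ (∀ p ∈ H, p ∉ convexHull ℝ ((H.erase p : Finset (Pt d)) : Set (Pt d))) ∧
    ∀ p ∈ P, p ∈ convexHull ℝ (H : Set (Pt d)) → p ∈ H

open Classical in
/-- For all `d`, `k`, `r` and `f : ℕ → ℕ` there is `N` such that for every `m` and every finite set `P` in
`ℝ^d`: if `C₁, …, C_r` are subsets of `P` such that for every `j` and `t` every subset `X` of `C_j` with at
least `f t` elements has a `t`-hole, and if `N (m + w) ≤ |C₁ ∪ ⋯ ∪ C_r|`, where `w` is the number of points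
of `P` outside of `C₁ ∪ ⋯ ∪ C_r`, then `P` has `m` holes with `k` vertices and with pairwise disjoint convex
hulls, each of them with all its vertices in one `C_j`. -/
theorem result (d k r : ℕ) (f : ℕ → ℕ) :
    ∃ N : ℕ, ∀ (m : ℕ) (P : Finset (Pt d)) (C : Fin r → Finset (Pt d)),
      (∀ j, C j ⊆ P) → (∀ j, ∀ t, ∀ X ⊆ C j, f t ≤ X.card → ∃ T, IsHole d t X T) →
      N * (m + (P \ Finset.univ.biUnion C).card) ≤ (Finset.univ.biUnion C).card →
      ∃ H : Fin m → Finset (Pt d),
        (∀ i, (∃ j, H i ⊆ C j) ∧ IsHole d k P (H i)) ∧
        ∀ i j, i ≠ j →
          Disjoint (convexHull ℝ (H i : Set (Pt d))) (convexHull ℝ (H j : Set (Pt d))) := by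
  obtain ⟨N, hN⟩ := H70.CC.her_most (E := Pt d) f k r
  exact ⟨N, fun m P C h1 h2 h3 => hN m P C h1 (fun j t X hX hc => h2 j t X hX hc) h3⟩

end Pool.Agent.Results.MP_44771e_co.HereditaryUnions
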