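import Pool.Agent.H70.CC.Quad

/-!
Sets which are covered by a bounded number of quadrics and of sets with few further points in each simplex (for
instance sets in convex position) have `k`-holes for all `k`.

The proof: for points `a_i` of a quadric `q = 0` with quadratic part `B` and for weights `w_i` with sum `1` one
has `q(∑ w_i a_i) = - (1/2) ∑ w_i w_j B(a_i - a_j)`.  By Ramsey's theorem a large set on the quadric has a large
subset `T` such that all `B(a - b)`, `a ≠ b` in `T`, have the same sign; they are not all zero by general
position, and so the convex hull of `T` meets the quadric in `T` only.  So each of the covering sets has the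
property that its large subsets contain large holes of the covering set, and this property passes to finite
unions.
-/

set_option autoImplicit false

namespace Pool.Agent.Results.MP_44771e_co.QuadricCovers

/-- Points of `ℝ^d`. -/
abbrev Pt (d : ℕ) : Type := EuclideanSpace ℝ (Fin d)

/-- `P` is in general position: every `d + 1` points of `P` are affinely independent. -/
def GeneralPosition (d : ℕ) (P : Finset (Pt d)) : Prop :=
  ∀ S ⊆ P, S.card = d + 1 → AffineIndependent ℝ (fun x : S => (x : Pt d))

open Classical in
/-- `H` is a `k`-hole of `P`: `H` is a subset of `P` with `k` elements, no point of `H` is in the convex hull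
of the other points of `H`, and the convex hull of `H` contains no other points of `P`. -/
def IsHole (d k : ℕ) (P H : Finset (Pt d)) : Prop :=
  H ⊆ P ∧ H.card = k ∧ (∀ p ∈ H, p ∉ convexHull ℝ ((H.erase p : Finset (Pt d)) : Set (Pt d))) ∧
    ∀ p ∈ P, p ∈ convexHull ℝ (H : Set (Pt d)) → p ∈ H

open Classical in
/-- The number of points of `A` which are in the convex hull of `S` but not in `S`. -/
noncomputable def further {d : ℕ} (A S : Finset (Pt d)) : ℕ :=
  ((A \ S).filter (fun p => p ∈ convexHull ℝ (S : Set (Pt d)))).card

/-- The polynomial `∑ A i j x_i x_j + ∑ b i x_i + c` of degree at most `2`. -/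
noncomputable def quad {d : ℕ} (A : Fin d → Fin d → ℝ) (b : Fin d → ℝ) (c : ℝ) (x : Pt d) : ℝ :=
  (∑ i, ∑ j, A i j * x i * x j) + (∑ i, b i * x i) + c

/-- `C` lies on a quadric: on the zero set of a polynomial of degree at most `2` which is not zero everywhere. -/
def OnQuadric {d : ℕ} (C : Finset (Pt d)) : Prop :=
  ∃ (A : Fin d → Fin d → ℝ) (b : Fin d → ℝ) (c : ℝ), (∃ y, quad A b c y ≠ 0) ∧ ∀ x ∈ C, quad A b c x = 0

/-- Every simplex spanned by `C` contains at most `K` further points of `C`. -/
def FewInside (d K : ℕ) (C : Finset (Pt d)) : Prop :=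
  ∀ S ⊆ C, S.card = d + 1 → further C S ≤ K

open Classical in
/-- For all `d`, `k`, `r`, `K`, where `K = 0` if `d` is even, there is `N` such that for every `m` and every
finite set `P` in general position in `ℝ^d`: if `C₁, …, C_r` are subsets of `P` each of which lies on a quadric or
spans only simplices with at most `K` further points of it, and if `N (m + w) ≤ |C₁ ∪ ⋯ ∪ C_r|`, where `w` is
the number of points of `P` outside of `C₁ ∪ ⋯ ∪ C_r`, then `P` has `m` holes with `k` vertices and with
pairwise disjoint convex hulls, each of them with all its vertices in one `C_j`. -/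
theorem result (d k r K : ℕ) (hK : Odd d ∨ K = 0) :
    ∃ N : ℕ, ∀ (m : ℕ) (P : Finset (Pt d)) (C : Fin r → Finset (Pt d)),
      GeneralPosition d P → (∀ j, C j ⊆ P) → (∀ j, OnQuadric (C j) ∨ FewInside d K (C j)) →
      N * (m + (P \ Finset.univ.biUnion C).card) ≤ (Finset.univ.biUnion C).card →
      ∃ H : Fin m → Finset (Pt d),
        (∀ i, (∃ j, H i ⊆ C j) ∧ IsHole d k P (H i)) ∧
        ∀ i j, i ≠ j →
          Disjoint (convexHull ℝ (H i : Set (Pt d))) (convexHull ℝ (H j : Set (Pt d))) := by
  obtain ⟨N, hN⟩ := H70.CC.covered (E := Pt d) (by simp [Pt]) k r K hK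
  refine ⟨N, fun m P C h1 h2 h3 h4 => hN m P C h1 h2 (fun j => ?_) h4⟩
  rcases h3 j with ⟨A, b, c, h5, h6⟩ | h
  · left
    let β : Pt d →ₗ[ℝ] Pt d →ₗ[ℝ] ℝ := LinearMap.mk₂ ℝ
      (fun x y => ∑ i, ∑ j, A i j * x i * y j)
      (fun x x' y => by
        simp only [PiLp.add_apply, ← Finset.sum_add_distrib]
        exact Finset.sum_congr rfl fun i _ => Finset.sum_congr rfl fun j _ => by ring)
      (fun t x y => by
        simp only [PiLp.smul_apply, smul_eq_mul, Finset.mul_sum]
        exact Finset.sum_congr rfl fun i _ => Finset.sum_congr rfl fun j _ => by ring)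
      (fun x y y' => by
        simp only [PiLp.add_apply, ← Finset.sum_add_distrib]
        exact Finset.sum_congr rfl fun i _ => Finset.sum_congr rfl fun j _ => by ring)
      (fun t x y => by
        simp only [PiLp.smul_apply, smul_eq_mul, Finset.mul_sum]
        exact Finset.sum_congr rfl fun i _ => Finset.sum_congr rfl fun j _ => by ring)
    let l : Pt d →ₗ[ℝ] ℝ :=
      { toFun := fun x => ∑ i, b i * x i
        map_add' := fun x y => by
          simp only [PiLp.add_apply, ← Finset.sum_add_distrib]
          exact Finset.sum_congr rfl fun i _ => by ring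
        map_smul' := fun t x => by
          simp only [PiLp.smul_apply, smul_eq_mul, Finset.mul_sum, RingHom.id_apply]
          exact Finset.sum_congr rfl fun i _ => by ring }
    have e : ∀ x, β x x + l x + c = quad A b c x := fun x => rfl
    exact ⟨β, l, c, by simpa only [e] using h5, by simpa only [e] using h6⟩
  · exact Or.inr h

end Pool.Agent.Results.MP_44771e_co.QuadricCovers
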